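import Pool.Agent.U374.BK.Good

/-!
# The Euler product over almost all places from the complete `L`-series of Mathlib
-/

set_option autoImplicit false

open WeierstrassCurve IsLocalRing IsDedekindDomain NumberField
open scoped Classical

namespace Pool.Agent.U374.BK

open Pool.Agent.W189.NF (aV eV aV_le eV_le LSeries_hasProd)
open Pool.Agent.H921R2.TatePole (nm two_le_nm)
open Pool.Agent.Y696.CTK (ED)
open Pool.Agent.R432.V (ef)

variable {F : Type} [Field F] [NumberField F]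

/-- the Euler factors have no poles far to the right -/
theorem dn_ne (E : WeierstrassCurve F) (v : HeightOneSpectrum (𝓞 F)) {s : ℂ} (hs : 2 < s.re) :
    dn E v s ≠ 0 := by
  have h2 := two_le_nm v
  have hq : (2 : ℝ) ≤ (nm v : ℝ) := by exact_mod_cast h2
  have hq0 : (0 : ℝ) < (nm v : ℝ) := by linarith
  have hX : ‖(nm v : ℂ) ^ (-s)‖ ≤ ((nm v : ℝ) ^ 2)⁻¹ := by
    rw [Complex.norm_natCast_cpow_of_pos (by omega), Complex.neg_re, ← Real.rpow_natCast,
      ← Real.rpow_neg hq0.le]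
    exact Real.rpow_le_rpow_of_exponent_le (by linarith) (by push_cast; linarith)
  have ha : ‖(aV E v : ℂ)‖ ≤ (nm v : ℝ) := by
    rw [Complex.norm_intCast]
    exact_mod_cast aV_le E v
  have he : ‖(eV E v : ℂ)‖ ≤ (nm v : ℝ) := by
    rw [Complex.norm_intCast]
    exact_mod_cast eV_le E v
  have h3 : ‖(aV E v : ℂ) * (nm v : ℂ) ^ (-s)‖ ≤ 1 / 2 := by
    rw [norm_mul]
    calc _ ≤ (nm v : ℝ) * ((nm v : ℝ) ^ 2)⁻¹ := mul_le_mul ha hX (norm_nonneg _) hq0.le
      _ = 1 / (nm v : ℝ) := by field_simp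
      _ ≤ 1 / 2 := one_div_le_one_div_of_le (by norm_num) hq
  have h4 : ‖(eV E v : ℂ) * ((nm v : ℂ) ^ (-s)) ^ 2‖ ≤ 1 / 4 := by
    rw [norm_mul, norm_pow]
    calc _ ≤ (nm v : ℝ) * (((nm v : ℝ) ^ 2)⁻¹) ^ 2 :=
          mul_le_mul he (pow_le_pow_left₀ (norm_nonneg _) hX 2) (by positivity) hq0.le
      _ = 1 / (nm v : ℝ) ^ 3 := by field_simp
      _ ≤ 1 / 4 := by
        refine one_div_le_one_div_of_le (by norm_num) ?_
        nlinarith [pow_le_pow_left₀ (by norm_num : (0 : ℝ) ≤ 2) hq 3]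
  intro h
  unfold dn at h
  have h5 : (1 : ℂ) = (aV E v : ℂ) * (nm v : ℂ) ^ (-s) - (eV E v : ℂ) * ((nm v : ℂ) ^ (-s)) ^ 2 := by
    linear_combination h
  have h6 : (1 : ℝ) ≤ 1 / 2 + 1 / 4 := by
    calc (1 : ℝ) = ‖(1 : ℂ)‖ := by simp
      _ = ‖(aV E v : ℂ) * (nm v : ℂ) ^ (-s) - (eV E v : ℂ) * ((nm v : ℂ) ^ (-s)) ^ 2‖ := by
        rw [← h5]
      _ ≤ _ := (norm_sub_le _ _).trans (add_le_add h3 h4)
  norm_num at h6

/-- **The partial `L`-function of `y² + D y = x³`.** -/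
theorem partial_ED {B D : 𝓞 F} (hB : B ≠ 0) (hBD : 3 * D ∣ B) {Λ : ℂ → ℂ}
    (hm : MeromorphicOn Λ Set.univ) (hs : ∀ s : ℂ, 2 < s.re → Λ s = (ED (D : F)).LSeries s)
    (ha : AnalyticAt ℂ Λ 1) (h1 : Λ 1 ≠ 0) :
    ∃ L : ℂ → ℂ, MeromorphicOn L Set.univ ∧ AnalyticAt ℂ L 1 ∧ L 1 ≠ 0 ∧ ∀ s : ℂ, 2 < s.re →
      HasProd (fun v : {v : HeightOneSpectrum (𝓞 F) | B ∉ v.asIdeal} => ef D s v.1) (L s) := by
  have hfin : {v : HeightOneSpectrum (𝓞 F) | B ∉ v.asIdeal}ᶜ.Finite := by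
    have h2 := Ideal.finite_factors (I := Ideal.span {B}) (by
      rw [Ne, Ideal.zero_eq_bot, Ideal.span_singleton_eq_bot]; exact hB)
    refine h2.subset fun v hv => ?_
    have h3 : B ∈ v.asIdeal := by
      by_contra h4
      exact hv h4
    show v.asIdeal ∣ Ideal.span {B}
    rw [Ideal.dvd_iff_le, Ideal.span_singleton_le_iff_mem]
    exact h3
  let S : Finset (HeightOneSpectrum (𝓞 F)) := hfin.toFinset
  have hS : ∀ v, v ∈ S ↔ B ∈ v.asIdeal := fun v => by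
    rw [hfin.mem_toFinset]
    show ¬ (B ∉ v.asIdeal) ↔ _
    exact not_not
  have han : ∀ v s, AnalyticAt ℂ (dn (ED (D : F)) v) s := fun v s =>
    (dn_diff (ED (D : F)) v).analyticAt s
  refine ⟨fun s => Λ s * ∏ v ∈ S, dn (ED (D : F)) v s, ?_, ?_, ?_, ?_⟩
  · intro s hs'
    exact (hm s hs').mul (MeromorphicAt.fun_prod fun v _ => (han v s).meromorphicAt)
  · exact ha.mul (Finset.analyticAt_fun_prod S fun v _ => han v 1)
  · exact mul_ne_zero h1 (Finset.prod_ne_zero_iff.2 fun v _ => dn_one (ED (D : F)) v)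
  · intro s hs'
    obtain ⟨-, h3⟩ := LSeries_hasProd (ED (D : F)) hs'
    have h4 : HasProd (fun v => if v ∈ S then dn (ED (D : F)) v s else 1)
        (∏ v ∈ S, if v ∈ S then dn (ED (D : F)) v s else 1) :=
      hasProd_prod_of_ne_finset_one fun v hv => if_neg hv
    have h5 : (∏ v ∈ S, if v ∈ S then dn (ED (D : F)) v s else 1) =
        ∏ v ∈ S, dn (ED (D : F)) v s := Finset.prod_congr rfl fun v hv => if_pos hv
    rw [h5] at h4
    have h6 := h3.mul h4
    show HasProd _ (Λ s * _)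
    rw [hs s hs']
    rw [← Function.comp_def (f := fun v => ef D s v), hasProd_subtype_iff_mulIndicator]
    refine h6.congr_fun fun v => ?_
    by_cases hv : v ∈ S
    · rw [if_pos hv, Set.mulIndicator_of_notMem (by
        show ¬ (B ∉ v.asIdeal)
        exact not_not.2 ((hS v).1 hv))]
      show 1 = (dn (ED (D : F)) v s)⁻¹ * dn (ED (D : F)) v s
      rw [inv_mul_cancel₀ (dn_ne _ v hs')]
    · have hv' : B ∉ v.asIdeal := fun h => hv ((hS v).2 h)
      rw [if_neg hv, Set.mulIndicator_of_mem (by exact hv'), mul_one]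
      show ef D s v = (dn (ED (D : F)) v s)⁻¹
      refine (dn_ef (fun h => hv' ?_) s).symm
      obtain ⟨c, rfl⟩ := hBD
      exact v.asIdeal.mul_mem_right _ h

end Pool.Agent.U374.BK
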