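import Pool.Agent.U374.BK.Full
import Pool.Agent.Y696.CTK.LF

/-!
# The places of good reduction of `y² + D y = x³` over a number field
-/

set_option autoImplicit false

open WeierstrassCurve IsLocalRing IsDedekindDomain NumberField
open scoped Classical

namespace Pool.Agent.U374.BK

open Pool.Agent.W189.NF (Ov aV eV aLoc eLoc card_res finite_res redMap redMap_eq_zero
  redMap_surjective)
open Pool.Agent.H921R2.TatePole (nm two_le_nm)
open Pool.Agent.Y688 (good_model nsol card_point)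
open Pool.Agent.Y696.CTK (ED EDr EDr_map EDr_Δ bcK coe_comp isUnit_of_notMem)
open Pool.Agent.R432.V (ef cn qv qv_eq)

variable {F : Type} [Field F] [NumberField F]

/-- the points over the two residue fields -/
lemma count_eq (v : HeightOneSpectrum (𝓞 F)) (D : 𝓞 F) :
    nsol ((EDr (algebraMap (𝓞 F) (Ov v) D)).map (residue (Ov v))) = cn D v := by
  have hker : RingHom.ker (redMap v) = v.asIdeal := by
    ext r
    rw [RingHom.mem_ker]
    exact redMap_eq_zero v r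
  let e0 : (𝓞 F ⧸ v.asIdeal) ≃+* (𝓞 F ⧸ RingHom.ker (redMap v)) := Ideal.quotEquivOfEq hker.symm
  let e : (𝓞 F ⧸ v.asIdeal) ≃+* ResidueField (Ov v) :=
    e0.trans (RingHom.quotientKerEquivOfSurjective (redMap_surjective v))
  have he : ∀ r : 𝓞 F, e (Ideal.Quotient.mk v.asIdeal r) = redMap v r := fun r => rfl
  unfold nsol cn
  refine (Nat.card_congr ?_).symm
  refine (Equiv.prodCongr e.toEquiv e.toEquiv).subtypeEquiv fun P => ?_
  rw [WeierstrassCurve.Affine.equation_iff]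
  have h1 : ((EDr (algebraMap (𝓞 F) (Ov v) D)).map (residue (Ov v))).a₃ = redMap v D := rfl
  have h2 : ((EDr (algebraMap (𝓞 F) (Ov v) D)).map (residue (Ov v))).a₁ = 0 := map_zero _
  have h3 : ((EDr (algebraMap (𝓞 F) (Ov v) D)).map (residue (Ov v))).a₂ = 0 := map_zero _
  have h4 : ((EDr (algebraMap (𝓞 F) (Ov v) D)).map (residue (Ov v))).a₄ = 0 := map_zero _
  have h5 : ((EDr (algebraMap (𝓞 F) (Ov v) D)).map (residue (Ov v))).a₆ = 0 := map_zero _
  rw [h1, h2, h3, h4, h5]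
  show P.2 ^ 2 + Ideal.Quotient.mk v.asIdeal D * P.2 = P.1 ^ 3 ↔
    (e P.2) ^ 2 + 0 * (e P.1) * (e P.2) + redMap v D * (e P.2) =
      (e P.1) ^ 3 + 0 * (e P.1) ^ 2 + 0 * (e P.1) + 0
  rw [← he D, ← e.injective.eq_iff]
  simp only [map_add, map_mul, map_pow, zero_mul, add_zero]

/-- **the places of good reduction** -/
theorem good_ED {v : HeightOneSpectrum (𝓞 F)} {D : 𝓞 F} (hv : 3 * D ∉ v.asIdeal) :
    aV (ED (D : F)) v = (nm v : ℤ) - cn D v ∧ eV (ED (D : F)) v = nm v := by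
  have hfin := finite_res v
  have h3 : (3 : 𝓞 F) ∉ v.asIdeal := fun h => hv (v.asIdeal.mul_mem_right _ h)
  have hD : D ∉ v.asIdeal := fun h => hv (v.asIdeal.mul_mem_left _ h)
  have hu3 : IsUnit (3 : Ov v) := by
    have := isUnit_of_notMem h3
    rwa [map_ofNat] at this
  have hΔ : IsUnit (EDr (algebraMap (𝓞 F) (Ov v) D)).Δ := by
    rw [EDr_Δ]
    have h2 : (-27 : Ov v) = -(3 ^ 3) := by norm_num
    rw [h2]
    exact ((hu3.pow 3).neg).mul ((isUnit_of_notMem hD).pow 4)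
  have hb : (ED (D : F)).baseChange (v.adicCompletion F) =
      (EDr (algebraMap (𝓞 F) (Ov v) D)).map (algebraMap (v.adicCompletionIntegers F)
        (v.adicCompletion F)) := by
    rw [bcK, EDr_map, coe_comp]
  obtain ⟨h1, h2, h4⟩ := good_model (v.adicCompletionIntegers F) (L := v.adicCompletion F)
    (EDr (algebraMap (𝓞 F) (Ov v) D)) hΔ
  rw [← hb] at h1 h2 h4
  constructor
  · unfold aV aLoc
    rw [if_pos h1, card_res, card_point _ h4, h2, count_eq]
    push_cast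
    ring
  · unfold eV eLoc
    rw [if_pos h1, card_res]

/-- the Euler factors -/
theorem dn_ef {v : HeightOneSpectrum (𝓞 F)} {D : 𝓞 F} (hv : 3 * D ∉ v.asIdeal) (s : ℂ) :
    (dn (ED (D : F)) v s)⁻¹ = ef D s v := by
  obtain ⟨h1, h2⟩ := good_ED hv
  unfold dn ef
  rw [h1, h2, qv_eq]
  have hq := nm_ne v
  have e : (nm v : ℂ) ^ (1 - 2 * s) = (nm v : ℂ) * ((nm v : ℂ) ^ (-s)) ^ 2 := by
    have e : (1 - 2 * s : ℂ) = 1 + ((2 : ℕ) : ℂ) * (-s) := by push_cast; ring
    rw [e, Complex.cpow_add _ _ hq, Complex.cpow_one, Complex.cpow_nat_mul]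
  rw [e]
  push_cast
  rfl

/-- **The complete `L`-function of `y² + D y = x³`.** -/
theorem complete_ED {B D : 𝓞 F} (hB : B ≠ 0) (hBD : 3 * D ∣ B) {L : ℂ → ℂ}
    (hL : Differentiable ℂ L) (h1 : L 1 ≠ 0)
    (hp : ∀ s : ℂ, 3 / 2 < s.re → HasProd (fun v : {v : HeightOneSpectrum (𝓞 F) | B ∉ v.asIdeal} =>
      ef D s v.1) (L s)) :
    ∃ Λ : ℂ → ℂ, MeromorphicOn Λ Set.univ ∧
      (∀ s : ℂ, 2 < s.re → LSeriesSummable ((fun n : ℤ => (n : ℂ)) ∘ (ED (D : F)).LFunction) s ∧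
        Λ s = (ED (D : F)).LSeries s) ∧ AnalyticAt ℂ Λ 1 ∧ Λ 1 ≠ 0 := by
  refine complete (ED (D : F)) hB hL h1 fun s hs => (hp s hs).congr_fun fun v => ?_
  refine dn_ef (fun h => v.2 ?_) s
  obtain ⟨c, rfl⟩ := hBD
  exact v.1.asIdeal.mul_mem_right _ h

end Pool.Agent.U374.BK
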