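import Pool.Agent.U854.TW.C
import Pool.Agent.U374.BK.Good
import Pool.Agent.Y696.XL.Ov

/-!
# The order of vanishing formula for the cubic twists over fixed fields
-/

set_option autoImplicit false
set_option linter.unusedSectionVars false
set_option linter.unusedVariables false

open scoped Classical

namespace Pool.Agent.U374.BK

open NumberField WeierstrassCurve IsDedekindDomain Module
open Pool.Agent.Y692.QS (Ei w nr toC)
open Pool.Agent.Y703.CT (Dt pD Ker ClsE)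
open Pool.Agent.TH841.NF.D (Sha)
open Pool.Agent.TH841.SH.D (Gal act)
open Pool.Agent.XL6 (SelK H0Z h0_of)
open Pool.Agent.Y667.BKP (PSeq IsV H1f h1f_zero)
open Pool.Agent.Y696.CTK (ED ED_Δ Tri Parts parts ClsK)
open Pool.Agent.Y699.E (prm prm_ne_zero)
open Pool.Agent.R432.V (io ef)
open Pool.Agent.U854.TW (Family mt mt_three mt_nine d_ne data_of eulG perF)

/-- the formula, with both sides equal to zero -/
def OVM {F : Type} [Field F] [NumberField F] (W : WeierstrassCurve F) : Prop :=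
  W.IsElliptic ∧
  (∃ L : ℂ → ℂ, MeromorphicOn L Set.univ ∧
    (∀ s : ℂ, 2 < s.re → LSeriesSummable ((fun n : ℤ => (n : ℂ)) ∘ W.LFunction) s ∧
      L s = W.LSeries s) ∧ AnalyticAt ℂ L 1 ∧ L 1 ≠ 0) ∧ H0Z W ∧ ∀ x : H1f 3 W, x = 0

/-- the formula from the data -/
theorem ovm_of {F : Type} [Field F] [NumberField F] {B D : 𝓞 F} (hB : B ≠ 0) (hBD : 3 * D ∣ B)
    {L : ℂ → ℂ} (hL : Differentiable ℂ L) (h1 : L 1 ≠ 0)
    (hp : ∀ s : ℂ, 3 / 2 < s.re → HasProd (fun v : {v : HeightOneSpectrum (𝓞 F) | B ∉ v.asIdeal} =>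
      ef D s v.1) (L s))
    (hfin : Finite (ED (D : F)).toAffine.Point) {m : ℕ}
    (hS : ∀ (k : ℕ) (y : Sha (ED (D : F))), 3 ^ k • y = 0 → 3 ^ m • y = 0) :
    OVM (ED (D : F)) := by
  have hD0 : D ≠ 0 := by
    rintro rfl
    rw [mul_zero, zero_dvd_iff] at hBD
    exact hB hBD
  have hD1 : (D : F) ≠ 0 := fun h => hD0 (RingOfIntegers.ext h)
  refine ⟨isUnit_iff_ne_zero.2 ?_ |> fun h => ⟨h⟩, complete_ED hB hBD hL h1 hp, h0_of hfin,
    h1f_zero Nat.prime_three hfin m hS⟩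
  rw [ED_Δ]
  exact mul_ne_zero (by norm_num) (pow_ne_zero _ hD1)

/-- **over the field of the third roots of unity** -/
theorem ovm_K (K : Type) [Field K] [NumberField K] [IsCyclotomicExtension {3} ℚ K] {D m : 𝓞 K}
    (hD : ClsK D) (h3 : (3 : 𝓞 K) ∣ m - 1) (h9 : (9 : ℤ) ∣ Algebra.norm ℤ m - 1)
    (hT : Tri (D * m)) : OVM (ED ((D * m : 𝓞 K) : K)) := by
  obtain ⟨⟨j, hj⟩, -⟩ := Pool.Agent.Y455.CTK.jex K
  obtain ⟨z, rfl⟩ := j.surjective D
  obtain ⟨y, rfl⟩ := j.surjective m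
  have hz : ClsE z := (Pool.Agent.Y696.XK.cls_iff j hj z).1 hD
  have hz0 : z ≠ 0 := prm_ne_zero hz.1
  have hy : prm y := by
    have e1 : j y - 1 = j (y - 1) := by rw [map_sub, map_one]
    rw [e1, ← map_ofNat j 3, map_dvd_iff j] at h3
    exact h3
  have hy0 : y ≠ 0 := prm_ne_zero hy
  have hy9 : (9 : ℤ) ∣ nr y - 1 := by
    rw [hj] at h9
    exact h9
  have hT' : Tri (j (z * y)) := by rw [map_mul]; exact hT
  obtain ⟨J, i1, i2, π, e, x, d1, d2, d3, d4, d5⟩ := data_of j hz hy hy9 hT'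
  have hzy : z * y ≠ 0 := mul_ne_zero hz0 hy0
  obtain ⟨L, a1, a2, a3⟩ := eulG (K := K) j hzy (I := Fin 0) (d := Fin.elim0) (fun i => i.elim0)
    (fun t => ⟨J, i1, i2, π, e, x, d1, d2, d3, d4, by
      rw [Finset.univ_eq_empty, Finset.prod_empty, mul_one]
      exact d5⟩) (F := K) Fin.elim0 (fun i => i.elim0)
    (fun L h1 _ => by
      rw [eq_top_iff]
      intro k _
      exact h1 k)
    (by rw [Fintype.card_fin, pow_zero, Module.finrank_self])
  have e0 : io K j (3 * (z * y) * ∏ i : Fin 0, (Fin.elim0 i : Ei)) = 3 * (j z * j y) := by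
    rw [Finset.univ_eq_empty, Finset.prod_empty, mul_one, Pool.Agent.R432.V.io_apply, map_mul j,
      map_mul j, map_ofNat]
    rfl
  have e1 : io K j (z * y) = j z * j y := by
    rw [Pool.Agent.R432.V.io_apply, map_mul j]
    rfl
  rw [e0, e1] at a3
  have h30 : (3 : 𝓞 K) ≠ 0 := by norm_num
  have hjz : j z * j y ≠ 0 := by
    rw [← map_mul]
    exact (map_ne_zero_iff j j.injective).2 hzy
  refine ovm_of (B := 3 * (j z * j y)) (mul_ne_zero h30 hjz) dvd_rfl a1 a2 a3 hT.1 (m := 0) ?_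
  intro k y' hy'
  rw [hT.2 k y' hy', smul_zero]

/-- **The formula for one `D`.** -/
theorem perD (K : Type) [Field K] [NumberField K] [IsCyclotomicExtension {3} ℚ K] {n : ℕ}
    {d : Fin n → 𝓞 K} (hd : Family d) {D : 𝓞 K} (hD : ClsK D) :
    ∃ r : (Fin n → ZMod 3) → ℕ,
      (∀ t, (SelK ((D * mt d t : 𝓞 K) : K)).ncard = 3 ^ (r t + 1) ∧
        (r t = 0 → OVM (ED ((D * mt d t : 𝓞 K) : K)))) ∧
      ∀ (F : Type) [Field F] [NumberField F] [Algebra K F] (x : Fin n → F),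
        (∀ i, x i ^ 3 = algebraMap K F (d i : K)) →
        (∀ L : Subfield F, (∀ k : K, algebraMap K F k ∈ L) → (∀ i, x i ∈ L) → L = ⊤) →
        finrank K F = 3 ^ n ∧ ((∀ t, r t = 0) → OVM (ED (algebraMap K F (D : K)))) := by
  obtain ⟨r, h1, h2⟩ := perF K hd hD
  refine ⟨r, fun t => ⟨(h1 t).1, fun h0 => ovm_K K hD (mt_three hd t) (mt_nine hd t)
    ((h1 t).2.2.1 h0)⟩, fun F _ _ _ x hx hgen => ?_⟩
  obtain ⟨h3, -, h5⟩ := h2 F x hx hgen
  refine ⟨h3, fun h0 => ?_⟩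
  obtain ⟨⟨L, h6, h7, h8⟩, h9, h10⟩ := h5 h0
  have hD0 : D ≠ 0 := by
    rintro rfl
    exact not_squarefree_zero hD.2.1
  have hBD : (3 : 𝓞 F) * algebraMap (𝓞 K) (𝓞 F) D ∣
      algebraMap (𝓞 K) (𝓞 F) (3 * D * ∏ i, d i) := by
    rw [map_mul (algebraMap (𝓞 K) (𝓞 F)) (3 * D), map_mul (algebraMap (𝓞 K) (𝓞 F)) 3, map_ofNat]
    exact dvd_mul_right _ _
  have hB0 : algebraMap (𝓞 K) (𝓞 F) (3 * D * ∏ i, d i) ≠ 0 := by
    rw [Ne, FaithfulSMul.algebraMap_eq_zero_iff]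
    exact mul_ne_zero (mul_ne_zero (by norm_num) hD0)
      (Finset.prod_ne_zero_iff.2 fun i _ => d_ne hd i)
  exact ovm_of hB0 hBD h6 h7 h8 h9 h10

/-- both groups of the Kummer map are zero -/
def BZ {F : Type} [Field F] [NumberField F] (W : WeierstrassCurve F) : Prop :=
  W.IsElliptic ∧ (∀ x : TensorProduct ℤ W.toAffine.Point ℚ_[3], x = 0) ∧ ∀ x : H1f 3 W, x = 0

theorem bz_of {F : Type} [Field F] [NumberField F] {D : F} (hD : D ≠ 0)
    (hfin : Finite (ED D).toAffine.Point) {m : ℕ}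
    (hS : ∀ (k : ℕ) (y : Sha (ED D)), 3 ^ k • y = 0 → 3 ^ m • y = 0) : BZ (ED D) := by
  have : Fact (Nat.Prime 3) := ⟨Nat.prime_three⟩
  refine ⟨⟨isUnit_iff_ne_zero.2 ?_⟩, Pool.Agent.Y667.BKP.tensor_zero 3,
    h1f_zero Nat.prime_three hfin m hS⟩
  rw [ED_Δ]
  exact mul_ne_zero (by norm_num) (pow_ne_zero _ hD)

/-- **The Kummer maps for one `D`.** -/
theorem perB (K : Type) [Field K] [NumberField K] [IsCyclotomicExtension {3} ℚ K] {n : ℕ}
    {d : Fin n → 𝓞 K} (hd : Family d) {D : 𝓞 K} (hD : ClsK D) :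
    ∃ r : (Fin n → ZMod 3) → ℕ,
      (∀ t, (SelK ((D * mt d t : 𝓞 K) : K)).ncard = 3 ^ (r t + 1) ∧
        (r t = 0 → BZ (ED ((D * mt d t : 𝓞 K) : K)))) ∧
      ∀ (F : Type) [Field F] [NumberField F] [Algebra K F] (x : Fin n → F),
        (∀ i, x i ^ 3 = algebraMap K F (d i : K)) →
        (∀ L : Subfield F, (∀ k : K, algebraMap K F k ∈ L) → (∀ i, x i ∈ L) → L = ⊤) →
        finrank K F = 3 ^ n ∧ ((∀ t, r t = 0) → BZ (ED (algebraMap K F (D : K)))) := by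
  obtain ⟨r, h1, h2⟩ := perF K hd hD
  have hD0 : D ≠ 0 := by
    rintro rfl
    exact not_squarefree_zero hD.2.1
  have hm0 : ∀ t, mt d t ≠ 0 := fun t =>
    Finset.prod_ne_zero_iff.2 fun i _ => pow_ne_zero _ (d_ne hd i)
  refine ⟨r, fun t => ⟨(h1 t).1, fun h0 => ?_⟩, fun F _ _ _ x hx hgen => ?_⟩
  · have hT := (h1 t).2.2.1 h0
    have h3 : ((D * mt d t : 𝓞 K) : K) ≠ 0 := fun h =>
      mul_ne_zero hD0 (hm0 t) (RingOfIntegers.ext h)
    refine bz_of h3 hT.1 (m := 0) fun k y hy => ?_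
    rw [hT.2 k y hy, smul_zero]
  · obtain ⟨h3, -, h5⟩ := h2 F x hx hgen
    refine ⟨h3, fun h0 => ?_⟩
    obtain ⟨-, h9, h10⟩ := h5 h0
    refine bz_of ?_ h9 h10
    rw [Ne, map_eq_zero]
    exact fun h => hD0 (RingOfIntegers.ext h)

end Pool.Agent.U374.BK
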