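import Pool.Agent.Q283.T3.Wk

/-!
# A marginal of the product law
-/

set_option autoImplicit false

open scoped Classical

namespace Pool.Agent.U374.BK

open Finset
open Pool.Agent.Y703.XL (cr)

/-- products of series, indexed by a finite type -/
theorem hasSum_pi' {ι : Type} [Fintype ι] (g : ι → ℕ → ℝ) (s : ι → ℝ) (h0 : ∀ k r, 0 ≤ g k r)
    (hs : ∀ k, HasSum (g k) (s k)) : HasSum (fun r : ι → ℕ => ∏ k, g k (r k)) (∏ k, s k) := by
  let e : ι ≃ Fin (Fintype.card ι) := Fintype.equivFin ι
  have h := Q283.T3B.hasSum_pi (fun k => g (e.symm k)) (fun k => s (e.symm k))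
    (fun k r => h0 _ r) (fun k => hs _)
  let E : (ι → ℕ) ≃ (Fin (Fintype.card ι) → ℕ) := e.arrowCongr (Equiv.refl ℕ)
  have h2 := (E.hasSum_iff).2 h
  rw [e.symm.prod_comp s] at h2
  refine h2.congr_fun fun r => ?_
  have h3 : ∀ k, (E r) k = r (e.symm k) := fun k => rfl
  show ∏ k, g k (r k) = ∏ k, g (e.symm k) ((E r) k)
  simp only [h3]
  exact (e.symm.prod_comp fun k => g k (r k)).symm

/-- **the probability that some given coordinates are zero** -/
theorem marg {ι : Type} [Fintype ι] (A : Finset ι) :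
    ∑' r : {r : ι → ℕ | ∀ t ∈ A, r t = 0}, ∏ t, cr (r.1 t) = cr 0 ^ A.card := by
  have h1 : ∀ k : ι, HasSum (fun r : ℕ => if (k ∈ A → r = 0) then cr r else 0)
      (if k ∈ A then cr 0 else 1) := by
    intro k
    by_cases hk : k ∈ A
    · rw [if_pos hk]
      have : (fun r : ℕ => if (k ∈ A → r = 0) then cr r else 0) =
          fun r => if r = 0 then cr 0 else 0 := by
        funext r
        by_cases hr : r = 0
        · subst hr
          simp
        · simp [hk, hr]
      rw [this]
      exact hasSum_ite_eq 0 (cr 0)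
    · rw [if_neg hk]
      refine Q283.T3B.sum_cr.congr_fun fun r => ?_
      rw [if_pos fun h => absurd h hk]
  have h2 := hasSum_pi' (fun (k : ι) r => if (k ∈ A → r = 0) then cr r else 0) _
    (fun k r => by
      show 0 ≤ if (k ∈ A → r = 0) then cr r else 0
      split_ifs
      · exact Q283.T3B.cr_nonneg r
      · exact le_rfl) h1
  rw [tsum_subtype {r : ι → ℕ | ∀ t ∈ A, r t = 0} fun r => ∏ k, cr (r k)]
  have h3 : (fun r : ι → ℕ => ({r : ι → ℕ | ∀ t ∈ A, r t = 0}.indicator
      fun r => ∏ k, cr (r k)) r) =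
      fun r => ∏ k, if (k ∈ A → r k = 0) then cr (r k) else 0 := by
    funext r
    by_cases hr : ∀ t ∈ A, r t = 0
    · rw [Set.indicator_of_mem (show r ∈ {r : ι → ℕ | ∀ t ∈ A, r t = 0} from hr)]
      exact prod_congr rfl fun k _ => (if_pos (hr k)).symm
    · rw [Set.indicator_of_notMem (show r ∉ {r : ι → ℕ | ∀ t ∈ A, r t = 0} from hr)]
      obtain ⟨k, hk⟩ := not_forall.1 hr
      exact (prod_eq_zero (mem_univ k) (if_neg hk)).symm
  rw [h3, h2.tsum_eq, prod_ite, prod_const, prod_const, one_pow, mul_one]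
  congr 1
  congr 1
  ext k
  simp

end Pool.Agent.U374.BK
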