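import Pool.Agent.Y688.R2
import Pool.Agent.R432.V3

/-!
# The complete `L`-function of an elliptic curve from its Euler product over almost all places

If the Euler product over the places outside a finite set extends to an entire function that is not
zero at `s = 1`, then the `L`-series of Mathlib (with all the Euler factors) extends to a meromorphic
function on the plane which is analytic and not zero at `s = 1`.
-/

set_option autoImplicit false

open WeierstrassCurve IsLocalRing IsDedekindDomain NumberField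
open scoped Classical

namespace Pool.Agent.U374.BK

open Pool.Agent.W189.NF (Ov aV eV aLoc eLoc card_res finite_res redMap redMap_eq_zero
  redMap_surjective point_card LSeries_hasProd)
open Pool.Agent.H921R2.TatePole (nm two_le_nm)

section Local

variable (R : Type) [CommRing R] [IsDomain R] [IsDiscreteValuationRing R] {L : Type}
  [Field L] [Algebra R L] [IsFractionRing R L] (W : WeierstrassCurve L)

/-- the value of the local polynomial at `1 / q` is not zero -/
theorem loc_pos [Finite (IsLocalRing.ResidueField R)] {q : ℕ} (hq2 : 2 ≤ q)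
    (hq : Nat.card (IsLocalRing.ResidueField R) = q) :
    (q : ℤ) ^ 2 - aLoc R W * q + eLoc R W ≠ 0 := by
  have hq' : (2 : ℤ) ≤ (q : ℤ) := by exact_mod_cast hq2
  unfold aLoc eLoc
  split_ifs
  · obtain ⟨h1, -⟩ := point_card ((W.minimal R).reduction R)
    have h1' : (1 : ℤ) ≤ (Nat.card ((W.minimal R).reduction R).toAffine.Point : ℤ) := by
      exact_mod_cast h1
    rw [hq]
    have e : (q : ℤ) ^ 2 - ((q : ℤ) + 1 - (Nat.card ((W.minimal R).reduction R).toAffine.Point : ℤ)) * q
        + q = (Nat.card ((W.minimal R).reduction R).toAffine.Point : ℤ) * q := by ring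
    rw [e]
    positivity
  · nlinarith
  · nlinarith
  · nlinarith

end Local

variable {F : Type} [Field F] [NumberField F]

/-- the denominator of the Euler factor of Mathlib's `L`-function at `v` -/
noncomputable def dn (E : WeierstrassCurve F) (v : HeightOneSpectrum (𝓞 F)) (s : ℂ) : ℂ :=
  1 - (aV E v : ℂ) * (nm v : ℂ) ^ (-s) + (eV E v : ℂ) * ((nm v : ℂ) ^ (-s)) ^ 2

lemma nm_ne (v : HeightOneSpectrum (𝓞 F)) : (nm v : ℂ) ≠ 0 := by
  have := two_le_nm v
  have h : nm v ≠ 0 := by omega
  exact_mod_cast h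

lemma dn_diff (E : WeierstrassCurve F) (v : HeightOneSpectrum (𝓞 F)) : Differentiable ℂ (dn E v) := by
  have h1 : Differentiable ℂ fun s : ℂ => (nm v : ℂ) ^ (-s) := fun s =>
    (differentiableAt_id.neg).const_cpow (Or.inl (nm_ne v))
  unfold dn
  exact ((differentiable_const _).sub ((differentiable_const _).mul h1)).add
    ((differentiable_const _).mul (h1.pow 2))

lemma dn_one (E : WeierstrassCurve F) (v : HeightOneSpectrum (𝓞 F)) : dn E v 1 ≠ 0 := by
  have hfin := finite_res v
  have h1 := loc_pos (v.adicCompletionIntegers F) (E.baseChange (v.adicCompletion F)) (two_le_nm v)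
    (card_res v)
  have h2 : ((((nm v : ℤ) ^ 2 - aV E v * nm v + eV E v : ℤ)) : ℂ) ≠ 0 := by exact_mod_cast h1
  intro h
  apply h2
  unfold dn at h
  rw [Complex.cpow_neg_one] at h
  have h3 := nm_ne v
  field_simp at h
  push_cast
  linear_combination h

/-- **The complete `L`-function.** -/
theorem complete (E : WeierstrassCurve F) {B : 𝓞 F} (hB : B ≠ 0) {L : ℂ → ℂ}
    (hL : Differentiable ℂ L) (h1 : L 1 ≠ 0)
    (hp : ∀ s : ℂ, 3 / 2 < s.re → HasProd (fun v : {v : HeightOneSpectrum (𝓞 F) | B ∉ v.asIdeal} =>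
      (dn E v.1 s)⁻¹) (L s)) :
    ∃ Λ : ℂ → ℂ, MeromorphicOn Λ Set.univ ∧
      (∀ s : ℂ, 2 < s.re → LSeriesSummable ((fun n : ℤ => (n : ℂ)) ∘ E.LFunction) s ∧
        Λ s = E.LSeries s) ∧ AnalyticAt ℂ Λ 1 ∧ Λ 1 ≠ 0 := by
  have hfin : {v : HeightOneSpectrum (𝓞 F) | B ∉ v.asIdeal}ᶜ.Finite := by
    have h2 := Ideal.finite_factors (I := Ideal.span {B}) (by
      rw [Ne, Ideal.zero_eq_bot, Ideal.span_singleton_eq_bot]; exact hB)
    refine h2.subset fun v hv => ?_
    have h3 : B ∈ v.asIdeal := by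
      by_contra h4
      exact hv h4
    show v.asIdeal ∣ Ideal.span {B}
    rw [Ideal.dvd_iff_le, Ideal.span_singleton_le_iff_mem]
    exact h3
  let S : Finset (HeightOneSpectrum (𝓞 F)) := hfin.toFinset
  have hS : ∀ v, v ∈ S ↔ v ∈ {v : HeightOneSpectrum (𝓞 F) | B ∉ v.asIdeal}ᶜ := fun v =>
    hfin.mem_toFinset
  have han : ∀ v s, AnalyticAt ℂ (dn E v) s := fun v s => (dn_diff E v).analyticAt s
  refine ⟨fun s => L s * ∏ v ∈ S, (dn E v s)⁻¹, ?_, ?_, ?_, ?_⟩
  · intro s _
    exact (hL.analyticAt s).meromorphicAt.mul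
      (MeromorphicAt.fun_prod fun v _ => (han v s).meromorphicAt.inv)
  · intro s hs
    obtain ⟨h2, h3⟩ := LSeries_hasProd E hs
    refine ⟨h2, ?_⟩
    have h4 := hp s (by linarith)
    have h5 : HasProd ((fun v => (dn E v s)⁻¹) ∘ ((↑) :
        ({v : HeightOneSpectrum (𝓞 F) | B ∉ v.asIdeal}ᶜ : Set _) → HeightOneSpectrum (𝓞 F)))
        (∏ v ∈ S, (dn E v s)⁻¹) := by
      have h6 := S.hasProd (fun v => (dn E v s)⁻¹)
      have h7 : ((S : Set (HeightOneSpectrum (𝓞 F)))) =
          {v : HeightOneSpectrum (𝓞 F) | B ∉ v.asIdeal}ᶜ := hfin.coe_toFinset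
      rw [← h7]
      exact h6
    have h8 : HasProd (fun v => (dn E v s)⁻¹) (L s * ∏ v ∈ S, (dn E v s)⁻¹) :=
      HasProd.mul_compl (s := {v : HeightOneSpectrum (𝓞 F) | B ∉ v.asIdeal}) h4 h5
    exact h8.unique h3
  · refine (hL.analyticAt 1).mul (Finset.analyticAt_fun_prod S fun v _ => ?_)
    exact (han v 1).inv (dn_one E v)
  · exact mul_ne_zero h1 (Finset.prod_ne_zero_iff.2 fun v _ => inv_ne_zero (dn_one E v))

end Pool.Agent.U374.BK
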